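import Mathlib
import Pool.Agent.H637R3.UC.Assemble

set_option autoImplicit false

namespace Pool.Agent.Results.MP_e8229a_co.LargeLattices

section

variable {L : Type*} [Lattice L]

theorem le_of_irred [Finite L] {x y : L} (h : ∀ a : L, SupIrred a → a ≤ x → a ≤ y) : x ≤ y := by
  classical
  have := Fintype.ofFinite L
  have : Nonempty L := ⟨x⟩
  let : OrderBot L := Fintype.toOrderBot L
  obtain ⟨s, hs, hirr⟩ := exists_supIrred_decomposition x
  rw [← hs]
  apply Finset.sup_le
  intro b hb
  have hbx : b ≤ x := by rw [← hs]; exact Finset.le_sup (f := id) hb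
  exact h b (hirr hb) hbx

end

/-- Every finite lattice `L` with at least two elements and at least `(9/20) 2^m` elements, where
`m` is the number of its join-irreducible elements, has a join-irreducible element `a` with at most
`|L| / 2` elements above it, and with fewer than `|L| / 2` elements above it unless
`|L| = 2^m`. -/
theorem result (L : Type*) [Lattice L] [Finite L] (h2 : 2 ≤ Nat.card L)
    (hd : 9 * 2 ^ Nat.card {a : L // SupIrred a} ≤ 20 * Nat.card L) :
    ∃ a : L, SupIrred a ∧ 2 * Nat.card {x : L // a ≤ x} ≤ Nat.card L ∧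
      (Nat.card L ≠ 2 ^ Nat.card {a : L // SupIrred a} →
        2 * Nat.card {x : L // a ≤ x} < Nat.card L) := by
  classical
  have := Fintype.ofFinite L
  set J := {a : L // SupIrred a} with hJ
  let φ : L → Finset J := fun x => Finset.univ.filter (fun j : J => ¬ (j : L) ≤ x)
  have hφ : Function.Injective φ := by
    intro x y hxy
    have key : ∀ x y : L, φ x = φ y → x ≤ y := by
      intro x y hxy
      apply le_of_irred
      intro a ha hax
      by_contra hay
      have h1 : (⟨a, ha⟩ : J) ∈ φ y := by simp [φ, hay]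
      rw [← hxy] at h1
      simp [φ] at h1
      exact h1 hax
    exact le_antisymm (key x y hxy) (key y x hxy.symm)
  let A : Finset (Finset J) := Finset.univ.image φ
  have hA : A.card = Nat.card L := by
    rw [Finset.card_image_of_injective _ hφ, Finset.card_univ, Nat.card_eq_fintype_card]
  have hmem : ∀ S, S ∈ A ↔ ∃ x, φ x = S := by
    intro S; simp [A]
  have huc : ∀ X ∈ A, ∀ Y ∈ A, X ∪ Y ∈ A := by
    intro X hX Y hY
    obtain ⟨x, rfl⟩ := (hmem X).1 hX
    obtain ⟨y, rfl⟩ := (hmem Y).1 hY
    refine (hmem _).2 ⟨x ⊓ y, ?_⟩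
    ext j
    simp only [φ, Finset.mem_filter, Finset.mem_univ, true_and, Finset.mem_union, le_inf_iff]
    tauto
  have hne0 : Nonempty L := by
    rw [← not_isEmpty_iff]
    intro h
    rw [Nat.card_eq_zero.2 (Or.inl h)] at h2
    omega
  let : OrderBot L := Fintype.toOrderBot L
  have hbot : φ ⊥ = Finset.univ := by
    ext j
    simp only [φ, Finset.mem_filter, Finset.mem_univ, true_and, iff_true, le_bot_iff]
    intro h
    have := j.2.1
    rw [h] at this
    exact this isMin_bot
  have hsup : A.sup id = Finset.univ := by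
    apply le_antisymm (Finset.subset_univ _)
    rw [← hbot]
    exact Finset.le_sup (f := id) ((hmem _).2 ⟨⊥, rfl⟩)
  have hcard : (A.sup id).card = Nat.card J := by
    rw [hsup, Finset.card_univ, Nat.card_eq_fintype_card]
  have hfil : ∀ j : J, (A.filter (fun S => j ∈ S)).card + Nat.card {x : L // (j : L) ≤ x} =
      Nat.card L := by
    intro j
    have h1 : A.filter (fun S => j ∈ S) =
        (Finset.univ.filter (fun x : L => ¬ (j : L) ≤ x)).image φ := by
      ext S
      simp only [Finset.mem_filter, Finset.mem_image, Finset.mem_univ, true_and, hmem]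
      constructor
      · rintro ⟨⟨x, rfl⟩, hj⟩
        refine ⟨x, ?_, rfl⟩
        simpa [φ] using hj
      · rintro ⟨x, hx, rfl⟩
        exact ⟨⟨x, rfl⟩, by simpa [φ] using hx⟩
    rw [h1, Finset.card_image_of_injective _ hφ, Nat.card_eq_fintype_card,
      Nat.card_eq_fintype_card, Fintype.card_subtype, add_comm,
      Finset.card_filter_add_card_filter_not, Finset.card_univ]
  have hd' : 9 * 2 ^ (A.sup id).card ≤ 20 * A.card := by rw [hcard, hA]; exact hd
  have hJne : (A.sup id).Nonempty := by
    rw [hsup, Finset.univ_nonempty_iff, ← not_isEmpty_iff]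
    intro hJe
    have h3 : Nat.card L ≤ 1 := by
      rw [Nat.card_eq_fintype_card, ← Finset.card_univ, Finset.card_le_one]
      intro x _ y _
      apply hφ
      exact Subsingleton.elim _ _
    omega
  by_cases hcase : Nat.card L = 2 ^ Nat.card J
  · obtain ⟨j, _, hj⟩ := Pool.Agent.H637R3.UC.dense_frankl A huc hJne hd'
    refine ⟨j, j.2, ?_, fun h => absurd hcase h⟩
    have := hfil j
    rw [hA] at hj
    omega
  · have hnp : A ≠ (A.sup id).powerset := by
      intro h
      apply hcase
      rw [← hA, ← hcard, ← Finset.card_powerset, ← h]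
    have hsep : ∀ x ∈ A.sup id, ∀ y ∈ A.sup id, x ≠ y →
        ∃ S ∈ A, (x ∈ S ∧ y ∉ S) ∨ (y ∈ S ∧ x ∉ S) := by
      intro j _ k _ hjk
      have hjk' : (j : L) ≠ k := fun h => hjk (Subtype.ext h)
      by_cases h : (k : L) ≤ j
      · have h' : ¬ (j : L) ≤ k := fun h' => hjk' (le_antisymm h' h)
        exact ⟨φ k, (hmem _).2 ⟨k, rfl⟩, Or.inl ⟨Finset.mem_filter.2 ⟨Finset.mem_univ _, h'⟩,
          fun hc => (Finset.mem_filter.1 hc).2 le_rfl⟩⟩
      · exact ⟨φ j, (hmem _).2 ⟨j, rfl⟩, Or.inr ⟨Finset.mem_filter.2 ⟨Finset.mem_univ _, h⟩,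
          fun hc => (Finset.mem_filter.1 hc).2 le_rfl⟩⟩
    obtain ⟨j, _, hj⟩ := Pool.Agent.H637R3.UC.dense_poonen A huc hsep hnp hd'
    have := hfil j
    rw [hA] at hj
    exact ⟨j, j.2, by omega, fun _ => by omega⟩

end Pool.Agent.Results.MP_e8229a_co.LargeLattices
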